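import Mathlib
import Pool.Agent.helper36.KCBin

/-!
A covering lemma with deficiency subspaces.
-/

namespace Pool.Agent.helper82.KCA

open Finset Pool.Agent.helper36.KC

section extend

variable {F U ι : Type*} [Field F] [AddCommGroup U] [Module F U] [FiniteDimensional F U]

/-- a few vectors of the family are enough to capture the whole family -/
lemma exists_extend (f : ι → U) (s : Set ι) (V : Submodule F U) :
    ∃ E : Finset ι, (∀ i ∈ E, i ∈ s) ∧
      (∀ i ∈ s, f i ∈ V ⊔ Submodule.span F (f '' (E : Set ι))) ∧
      Module.finrank F V + E.card ≤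
        Module.finrank F (V ⊔ Submodule.span F (f '' (E : Set ι)) : Submodule F U) := by
  classical
  let P : ℕ → Prop := fun k => ∃ E : Finset ι, E.card = k ∧ (∀ i ∈ E, i ∈ s) ∧
    Module.finrank F V + E.card ≤
      Module.finrank F (V ⊔ Submodule.span F (f '' (E : Set ι)) : Submodule F U)
  have h0 : P 0 := by
    refine ⟨∅, rfl, by simp, ?_⟩
    simp only [card_empty, add_zero]
    exact Submodule.finrank_mono le_sup_left
  have hbd : ∀ k, P k → k ≤ Module.finrank F U := by
    rintro k ⟨E, hE, -, hle⟩
    have := Submodule.finrank_le (V ⊔ Submodule.span F (f '' (E : Set ι)) : Submodule F U)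
    omega
  obtain ⟨E, hE, hs, hle⟩ := Nat.findGreatest_spec (P := P) (Nat.zero_le (Module.finrank F U)) h0
  refine ⟨E, hs, ?_, hle⟩
  intro i hi
  by_contra hno
  set W := (V ⊔ Submodule.span F (f '' (E : Set ι)) : Submodule F U) with hW
  have hiE : i ∉ E := by
    intro h
    exact hno (Submodule.mem_sup_right (Submodule.subset_span ⟨i, h, rfl⟩))
  have hlt : W < (V ⊔ Submodule.span F (f '' ((insert i E : Finset ι) : Set ι)) :
      Submodule F U) := by
    refine lt_of_le_of_ne ?_ ?_
    · refine sup_le_sup_left (Submodule.span_mono ?_) V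
      exact Set.image_mono (by simp)
    · intro heq
      apply hno
      rw [heq]
      refine Submodule.mem_sup_right (Submodule.subset_span ⟨i, by simp, rfl⟩)
  have hfr := Submodule.finrank_lt_finrank_of_lt hlt
  have hP : P (E.card + 1) := by
    refine ⟨insert i E, card_insert_of_notMem hiE, ?_, ?_⟩
    · intro j hj
      rw [mem_insert] at hj
      rcases hj with rfl | hj
      · exact hi
      · exact hs j hj
    · rw [card_insert_of_notMem hiE]
      omega
  have := Nat.le_findGreatest (P := P) (hbd _ hP) hP
  omega

end extend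

section cover

variable {Λ L F U : Type*} [Field F] [AddCommGroup U] [Module F U] [FiniteDimensional F U]

/-- Every set of at most `b` labels is avoided by a member of `S`. -/
def AvoidsAll' {n : ℕ} (inc : Λ → L → Prop) (b : ℕ) (S : Set (Λ × (Fin n → Option Bool))) : Prop :=
  ∀ (C : Finset L) (X Y : Finset (Fin n)), C.card + (X.card + Y.card) ≤ b →
    ∃ p ∈ S, (∀ l ∈ C, ¬ inc p.1 l) ∧ (∀ i ∈ X, p.2 i ≠ some false) ∧ ∀ i ∈ Y, p.2 i ≠ some true

/-- the span of the vectors of the members of `T` which miss `w` -/
def VT (F : Type*) {Λ U : Type*} [Field F] [AddCommGroup U] [Module F U] (φ : Λ → U)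
    {n : ℕ} (T : Set (Λ × (Fin n → Option Bool))) (w : Fin n → Bool) :
    Submodule F U :=
  Submodule.span F ((fun p : Λ × (Fin n → Option Bool) => φ p.1) '' {p | p ∈ T ∧ MissW p.2 w})

lemma avoids_star' {inc : Λ → L → Prop} {n b : ℕ} {S : Set (Λ × (Fin (n + 1) → Option Bool))}
    (hS : AvoidsAll' inc (b + 2) S) :
    AvoidsAll' inc b {p : Λ × (Fin n → Option Bool) |
      (p.1, (Fin.cons none p.2 : Fin (n + 1) → Option Bool)) ∈ S} := by
  intro C X Y hXY
  obtain ⟨⟨y, e⟩, he, hC, h0, h1⟩ := hS C (insert 0 (liftSet X)) (insert 0 (liftSet Y)) (by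
    rw [card_insert_of_notMem zero_notMem_liftSet, card_insert_of_notMem zero_notMem_liftSet,
      card_liftSet, card_liftSet]
    omega)
  have hz : e 0 = none := by
    rcases h : e 0 with _ | b
    · rfl
    · cases b with
      | false => exact absurd h (h0 0 (mem_insert_self _ _))
      | true => exact absurd h (h1 0 (mem_insert_self _ _))
  refine ⟨(y, fun i => e i.succ), ?_, hC, fun i hi => ?_, fun i hi => ?_⟩
  · have : (Fin.cons none (fun i => e i.succ) : Fin (n + 1) → Option Bool) = e := by
      rw [← hz]
      exact Fin.cons_self_tail e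
    show (y, (Fin.cons none (fun i => e i.succ) : Fin (n + 1) → Option Bool)) ∈ S
    rw [this]
    exact he
  · exact h0 _ (mem_insert_of_mem (succ_mem_liftSet.2 hi))
  · exact h1 _ (mem_insert_of_mem (succ_mem_liftSet.2 hi))

lemma avoids_any' {inc : Λ → L → Prop} {n b : ℕ} {S : Set (Λ × (Fin (n + 1) → Option Bool))}
    (hS : AvoidsAll' inc b S) :
    AvoidsAll' inc b {p : Λ × (Fin n → Option Bool) |
      ∃ a, (p.1, (Fin.cons a p.2 : Fin (n + 1) → Option Bool)) ∈ S} := by
  intro C X Y hXY
  obtain ⟨⟨y, e⟩, he, hC, h0, h1⟩ := hS C (liftSet X) (liftSet Y) (by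
    rw [card_liftSet, card_liftSet]; omega)
  refine ⟨(y, fun i => e i.succ), ⟨e 0, ?_⟩, hC, fun i hi => ?_, fun i hi => ?_⟩
  · have : (Fin.cons (e 0) (fun i => e i.succ) : Fin (n + 1) → Option Bool) = e :=
      Fin.cons_self_tail e
    show (y, (Fin.cons (e 0) (fun i => e i.succ) : Fin (n + 1) → Option Bool)) ∈ S
    rw [this]
    exact he
  · exact h0 _ (succ_mem_liftSet.2 hi)
  · exact h1 _ (succ_mem_liftSet.2 hi)

omit [FiniteDimensional F U] in
/-- fullness of the spans when the budget is large -/
lemma VT_full {inc : Λ → L → Prop} {φ : Λ → U} {g : ℕ}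
    (hfull : ∀ Y : Set Λ, (∀ C : Finset L, C.card ≤ g → ∃ y ∈ Y, ∀ l ∈ C, ¬ inc y l) →
      Submodule.span F (φ '' Y) = ⊤)
    {n b : ℕ} (hb : g + n ≤ b) {S : Set (Λ × (Fin n → Option Bool))}
    (hS : AvoidsAll' inc b S) (w : Fin n → Bool) : VT F φ S w = ⊤ := by
  classical
  have h := hfull {y | ∃ e, (y, e) ∈ S ∧ MissW e w} (by
    intro C hC
    obtain ⟨⟨y, e⟩, he, hCy, h0, h1⟩ := hS C (univ.filter fun i => w i = false)
      (univ.filter fun i => w i = true) (by
        have : (univ.filter fun i => w i = false).card + (univ.filter fun i => w i = true).card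
            = n := by
          have h := Finset.card_filter_add_card_filter_not (s := (univ : Finset (Fin n)))
            (fun i => w i = false)
          simp only [card_univ, Fintype.card_fin, Bool.not_eq_false] at h
          exact h
        omega)
    refine ⟨y, ⟨e, he, fun i => ?_⟩, hCy⟩
    cases hw : w i with
    | false => exact h0 i (by simp [hw])
    | true => exact h1 i (by simp [hw]))
  rw [eq_top_iff, ← h]
  refine Submodule.span_mono ?_
  rintro _ ⟨y, ⟨e, he, hm⟩, rfl⟩
  exact ⟨(y, e), ⟨he, hm⟩, rfl⟩

lemma sum_cons {n : ℕ} (f : (Fin (n + 1) → Bool) → ℕ) :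
    ∑ w, f w = ∑ w' : Fin n → Bool,
      (f (Fin.cons false w' : Fin (n + 1) → Bool) + f (Fin.cons true w' : Fin (n + 1) → Bool)) := by
  rw [← (Fin.consEquiv (fun _ : Fin (n + 1) => Bool)).sum_comp f, Fintype.sum_prod_type,
    Fintype.sum_bool, ← Finset.sum_add_distrib]
  refine Finset.sum_congr rfl fun w' _ => ?_
  rw [add_comm]
  rfl

lemma card_words_le {M n δ : ℕ} :
    M * 2 ^ n ≤ M * ∑ j ∈ Icc 0 (n + δ - 0), n.choose j := by
  refine Nat.mul_le_mul_left M ?_
  calc 2 ^ n = ∑ j ∈ range (n + 1), n.choose j := (Nat.sum_range_choose n).symm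
    _ ≤ ∑ j ∈ Icc 0 (n + δ - 0), n.choose j := by
      refine Finset.sum_le_sum_of_subset ?_
      intro j hj
      rw [mem_range] at hj
      rw [mem_Icc]
      omega

omit [FiniteDimensional F U] in
lemma base_case (φ : Λ → U) {n δ : ℕ}
    (S : Set (Λ × (Fin n → Option Bool))) :
    ∃ (T : Finset (Λ × (Fin n → Option Bool))) (Z : (Fin n → Bool) → Submodule F U),
      (∀ p ∈ T, p ∈ S) ∧
      T.card + ∑ w, Module.finrank F (Z w) ≤
        Module.finrank F U * ∑ j ∈ Icc 0 (n + δ - 0), n.choose j ∧
      ∀ w, VT F φ (T : Set (Λ × (Fin n → Option Bool))) w ⊔ Z w = ⊤ := by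
  refine ⟨∅, fun _ => ⊤, by simp, ?_, fun w => by simp⟩
  have h1 : ∑ _w : Fin n → Bool, Module.finrank F (⊤ : Submodule F U) =
      Module.finrank F U * 2 ^ n := by
    rw [finrank_top, sum_const, card_univ, smul_eq_mul, mul_comm]
    simp
  rw [card_empty, zero_add]
  refine h1.le.trans ?_
  exact card_words_le

/-- The covering lemma. -/
theorem cover_lemma' {inc : Λ → L → Prop} {φ : Λ → U} {g : ℕ}
    (hfull : ∀ Y : Set Λ, (∀ C : Finset L, C.card ≤ g → ∃ y ∈ Y, ∀ l ∈ C, ¬ inc y l) →
      Submodule.span F (φ '' Y) = ⊤) (n : ℕ) :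
    ∀ (lo δ : ℕ), δ ≤ 1 → 2 * lo ≤ n + δ →
    ∀ S : Set (Λ × (Fin n → Option Bool)), AvoidsAll' inc (g + (2 * lo + 1 - δ)) S →
    ∃ (T : Finset (Λ × (Fin n → Option Bool))) (Z : (Fin n → Bool) → Submodule F U),
      (∀ p ∈ T, p ∈ S) ∧
      T.card + ∑ w, Module.finrank F (Z w) ≤
        Module.finrank F U * ∑ j ∈ Icc lo (n + δ - lo), n.choose j ∧
      ∀ w, VT F φ (T : Set (Λ × (Fin n → Option Bool))) w ⊔ Z w = ⊤ := by
  classical
  induction n with
  | zero =>
    intro lo δ hδ hlo S _
    have h0 : lo = 0 := by omega
    subst h0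
    exact base_case φ S
  | succ n ih =>
    intro lo δ hδ hlo S hS
    rcases Nat.eq_zero_or_pos lo with h0 | hpos
    · subst h0
      exact base_case φ S
    · have hb : g + (2 * lo + 1 - δ) = (g + (2 * (lo - 1) + 1 - δ)) + 2 := by omega
      rw [hb] at hS
      have hS1 := avoids_star' hS
      obtain ⟨T1, Z1, hT1, hc1, hw1⟩ := ih (lo - 1) δ hδ (by omega) _ hS1
      have hwin : n + δ - (lo - 1) = n + 1 + δ - lo := by omega
      rw [hwin] at hc1
      rw [sum_choose_split hpos (by omega), Nat.mul_add]
      have hZ1 : ∀ w', Module.finrank F U ≤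
          Module.finrank F (VT F φ (T1 : Set (Λ × (Fin n → Option Bool))) w') +
            Module.finrank F (Z1 w') := by
        intro w'
        have h1 := Submodule.finrank_add_le_finrank_add_finrank
          (VT F φ (T1 : Set (Λ × (Fin n → Option Bool))) w') (Z1 w')
        rw [hw1 w', finrank_top] at h1
        exact h1
      by_cases hcase : 2 * lo ≤ n + δ
      · have hS2 := avoids_any' (b := g + (2 * lo + 1 - δ)) (by rw [hb]; exact hS)
        obtain ⟨T2, Z2, hT2, hc2, hw2⟩ := ih lo δ hδ hcase _ hS2
        have hwin2 : n + δ - lo = n + 1 + δ - lo - 1 := by omega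
        rw [hwin2] at hc2
        have hZ2 : ∀ w', Module.finrank F U ≤
            Module.finrank F (VT F φ (T2 : Set (Λ × (Fin n → Option Bool))) w') +
              Module.finrank F (Z2 w') := by
          intro w'
          have h1 := Submodule.finrank_add_le_finrank_add_finrank
            (VT F φ (T2 : Set (Λ × (Fin n → Option Bool))) w') (Z2 w')
          rw [hw2 w', finrank_top] at h1
          exact h1
        choose! a ha using hT2
        -- lifts
        let l1 : Λ × (Fin n → Option Bool) → Λ × (Fin (n + 1) → Option Bool) :=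
          fun p => (p.1, (Fin.cons none p.2 : Fin (n + 1) → Option Bool))
        let l2 : Λ × (Fin n → Option Bool) → Λ × (Fin (n + 1) → Option Bool) :=
          fun p => (p.1, (Fin.cons (a p) p.2 : Fin (n + 1) → Option Bool))
        let V1 : (Fin n → Bool) → Submodule F U :=
          fun w' => VT F φ (T1 : Set (Λ × (Fin n → Option Bool))) w'
        let V2 : Bool → (Fin n → Bool) → Submodule F U :=
          fun c w' => VT F φ {p | p ∈ T2 ∧ a p ≠ some c} w'
        have hcompl : ∀ w : Fin (n + 1) → Bool, ∃ Q : Submodule F U,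
            IsCompl (V1 (fun i => w i.succ) ⊔ V2 (w 0) (fun i => w i.succ)) Q :=
          fun w => Submodule.exists_isCompl _
        choose Z hZ using hcompl
        refine ⟨T1.image l1 ∪ T2.image l2, Z, ?_, ?_, ?_⟩
        · intro e he
          rw [mem_union, mem_image, mem_image] at he
          rcases he with ⟨e', he', rfl⟩ | ⟨e', he', rfl⟩
          · exact hT1 e' he'
          · exact ha e' he'
        · have h1 := card_union_le (T1.image l1) (T2.image l2)
          have h3 := card_image_le (s := T1) (f := l1)
          have h4 := card_image_le (s := T2) (f := l2)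
          have hkey : ∑ w, Module.finrank F (Z w) ≤
              ∑ w', Module.finrank F (Z1 w') + ∑ w', Module.finrank F (Z2 w') := by
            rw [sum_cons, ← Finset.sum_add_distrib]
            refine Finset.sum_le_sum fun w' _ => ?_
            have hZc : ∀ c : Bool, Module.finrank F (V1 w' ⊔ V2 c w' : Submodule F U) +
                Module.finrank F (Z (Fin.cons c w' : Fin (n + 1) → Bool)) =
                Module.finrank F U := by
              intro c
              exact Submodule.finrank_add_eq_of_isCompl (hZ (Fin.cons c w' : Fin (n + 1) → Bool))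
            have hf := hZc false
            have ht := hZc true
            have hsum := Submodule.finrank_sup_add_finrank_inf_eq
              (V1 w' ⊔ V2 false w') (V1 w' ⊔ V2 true w')
            have hinf : Module.finrank F (V1 w') ≤ Module.finrank F
                ((V1 w' ⊔ V2 false w') ⊓ (V1 w' ⊔ V2 true w') : Submodule F U) :=
              Submodule.finrank_mono (le_inf le_sup_left le_sup_left)
            have hsup : Module.finrank F
                (VT F φ (T2 : Set (Λ × (Fin n → Option Bool))) w') ≤ Module.finrank F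
                ((V1 w' ⊔ V2 false w') ⊔ (V1 w' ⊔ V2 true w') : Submodule F U) := by
              refine Submodule.finrank_mono ?_
              refine Submodule.span_le.2 ?_
              rintro _ ⟨p, ⟨hp, hpm⟩, rfl⟩
              by_cases hap : a p = some false
              · refine Submodule.mem_sup_right (Submodule.mem_sup_right ?_)
                refine Submodule.subset_span ⟨p, ⟨⟨hp, ?_⟩, hpm⟩, rfl⟩
                rw [hap]; simp
              · refine Submodule.mem_sup_left (Submodule.mem_sup_right ?_)
                exact Submodule.subset_span ⟨p, ⟨⟨hp, hap⟩, hpm⟩, rfl⟩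
            have e1 := hZ1 w'
            have e2 := hZ2 w'
            have e3 : Module.finrank F (V1 w') =
              Module.finrank F (VT F φ (T1 : Set (Λ × (Fin n → Option Bool))) w') := rfl
            omega
          omega
        · intro w
          obtain ⟨c, w', rfl⟩ : ∃ (c : Bool) (w' : Fin n → Bool),
              w = (Fin.cons c w' : Fin (n + 1) → Bool) :=
            ⟨w 0, fun i => w i.succ, (Fin.cons_self_tail w).symm⟩
          rw [eq_top_iff]
          have h5 := (hZ (Fin.cons c w' : Fin (n + 1) → Bool)).sup_eq_top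
          rw [← h5]
          refine sup_le_sup_right ?_ _
          refine sup_le ?_ ?_
          · refine Submodule.span_le.2 ?_
            rintro _ ⟨p, ⟨hp, hpm⟩, rfl⟩
            refine Submodule.subset_span ⟨l1 p, ⟨?_, ?_⟩, rfl⟩
            · rw [coe_union]
              left
              exact mem_coe.2 (mem_image_of_mem l1 hp)
            · exact missW_cons (by simp) (by simpa using hpm)
          · refine Submodule.span_le.2 ?_
            rintro _ ⟨p, ⟨⟨hp, hap⟩, hpm⟩, rfl⟩
            refine Submodule.subset_span ⟨l2 p, ⟨?_, ?_⟩, rfl⟩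
            · rw [coe_union]
              right
              exact mem_coe.2 (mem_image_of_mem l2 hp)
            · exact missW_cons (by simpa using hap) (by simpa using hpm)
      · -- the window is a single layer
        have hE : ∀ w' : Fin n → Bool, ∃ E : Finset (Λ × (Fin n → Option Bool)),
            (∀ p ∈ E, (p.1, (Fin.cons none p.2 : Fin (n + 1) → Option Bool)) ∈ S ∧
              MissW p.2 w') ∧
            VT F φ (T1 : Set (Λ × (Fin n → Option Bool))) w' ⊔
              VT F φ (E : Set (Λ × (Fin n → Option Bool))) w' = ⊤ ∧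
            E.card ≤ Module.finrank F (Z1 w') := by
          intro w'
          obtain ⟨E, hE1, hE2, hE3⟩ := exists_extend (F := F)
            (fun p : Λ × (Fin n → Option Bool) => φ p.1)
            {p | (p.1, (Fin.cons none p.2 : Fin (n + 1) → Option Bool)) ∈ S ∧ MissW p.2 w'}
            (VT F φ (T1 : Set (Λ × (Fin n → Option Bool))) w')
          have hEeq : Submodule.span F ((fun p : Λ × (Fin n → Option Bool) => φ p.1) ''
              (E : Set (Λ × (Fin n → Option Bool)))) =
              VT F φ (E : Set (Λ × (Fin n → Option Bool))) w' := by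
            unfold VT
            congr 1
            congr 1
            ext p
            constructor
            · intro hp
              exact ⟨hp, (hE1 p hp).2⟩
            · intro hp
              exact hp.1
          rw [hEeq] at hE2 hE3
          have htop : VT F φ (T1 : Set (Λ × (Fin n → Option Bool))) w' ⊔
              VT F φ (E : Set (Λ × (Fin n → Option Bool))) w' = ⊤ := by
            rw [eq_top_iff, ← VT_full hfull (b := g + (2 * (lo - 1) + 1 - δ)) (by omega) hS1 w']
            refine Submodule.span_le.2 ?_
            rintro _ ⟨p, hp, rfl⟩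
            exact hE2 p hp
          refine ⟨E, hE1, htop, ?_⟩
          rw [htop, finrank_top] at hE3
          have := hZ1 w'
          omega
        choose E hE1 hE2 hE3 using hE
        let l1 : Λ × (Fin n → Option Bool) → Λ × (Fin (n + 1) → Option Bool) :=
          fun p => (p.1, (Fin.cons none p.2 : Fin (n + 1) → Option Bool))
        refine ⟨(T1 ∪ univ.biUnion E).image l1, fun _ => ⊥, ?_, ?_, ?_⟩
        · intro e he
          rw [mem_image] at he
          obtain ⟨e', he', rfl⟩ := he
          rw [mem_union, mem_biUnion] at he'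
          rcases he' with h | ⟨w, -, h⟩
          · exact hT1 e' h
          · exact (hE1 w e' h).1
        · have h1 := card_image_le (s := T1 ∪ univ.biUnion E) (f := l1)
          have h2 := card_union_le T1 (univ.biUnion E)
          have h3 : (univ.biUnion E).card ≤ ∑ w', Module.finrank F (Z1 w') :=
            card_biUnion_le.trans (Finset.sum_le_sum fun w' _ => hE3 w')
          have h4 : ∑ _w : Fin (n + 1) → Bool, Module.finrank F (⊥ : Submodule F U) = 0 := by
            simp
          rw [h4]
          omega
        · intro w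
          obtain ⟨c, w', rfl⟩ : ∃ (c : Bool) (w' : Fin n → Bool),
              w = (Fin.cons c w' : Fin (n + 1) → Bool) :=
            ⟨w 0, fun i => w i.succ, (Fin.cons_self_tail w).symm⟩
          rw [sup_bot_eq, eq_top_iff, ← hE2 w']
          refine sup_le ?_ ?_
          · refine Submodule.span_le.2 ?_
            rintro _ ⟨p, ⟨hp, hpm⟩, rfl⟩
            refine Submodule.subset_span ⟨l1 p, ⟨?_, ?_⟩, rfl⟩
            · exact mem_coe.2 (mem_image_of_mem l1 (mem_union_left _ hp))
            · exact missW_cons (by simp) hpm
          · refine Submodule.span_le.2 ?_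
            rintro _ ⟨p, ⟨hp, hpm⟩, rfl⟩
            refine Submodule.subset_span ⟨l1 p, ⟨?_, ?_⟩, rfl⟩
            · exact mem_coe.2 (mem_image_of_mem l1 (mem_union_right _
                (mem_biUnion.2 ⟨w', mem_univ _, hp⟩)))
            · exact missW_cons (by simp) hpm

end cover

end Pool.Agent.helper82.KCA
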