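import Mathlib

/-!
Generic vectors attached to words.
-/

namespace Pool.Agent.helper82.KCA

open Finset

section generic

variable {ι : Type} [Fintype ι] [DecidableEq ι] (V : ι → Type)

/-- the field generated by independent variables, one for each letter -/
abbrev GF {ι : Type} (V : ι → Type) : Type := FractionRing (MvPolynomial (Σ i, V i) ℚ)

/-- the variable of a letter -/
noncomputable def gz {ι : Type} (V : ι → Type) (l : Σ i, V i) : GF V :=
  algebraMap (MvPolynomial (Σ i, V i) ℚ) (GF V) (MvPolynomial.X l)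

lemma gz_indep {ι : Type} (V : ι → Type) : AlgebraicIndependent ℚ (gz V) := by
  have h := MvPolynomial.algebraicIndependent_X (Σ i, V i) ℚ
  exact h.map' (f := IsScalarTower.toAlgHom ℚ (MvPolynomial (Σ i, V i) ℚ) (GF V))
    (IsFractionRing.injective (MvPolynomial (Σ i, V i) ℚ) (GF V))

/-- the vector of a word -/
noncomputable def gphi (y : ∀ i, V i) : (ι → Bool) → GF V :=
  fun S => ∏ i, if S i = true then 1 else gz V ⟨i, y i⟩

/-- the dual vector of a word -/
noncomputable def gpsi (a : ∀ i, V i) : ((ι → Bool) → GF V) →ₗ[GF V] GF V :=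
  ∑ S : ι → Bool, (∏ i, if S i = true then gz V ⟨i, a i⟩ else -1) •
    (LinearMap.proj S : ((ι → Bool) → GF V) →ₗ[GF V] GF V)

lemma gpsi_gphi (a y : ∀ i, V i) :
    gpsi V a (gphi V y) = ∏ i, (gz V ⟨i, a i⟩ - gz V ⟨i, y i⟩) := by
  unfold gpsi
  rw [LinearMap.sum_apply]
  have h1 : ∀ i : ι, gz V ⟨i, a i⟩ - gz V ⟨i, y i⟩ =
      ∑ b : Bool, if b = true then gz V ⟨i, a i⟩ else - gz V ⟨i, y i⟩ := by
    intro i
    rw [Fintype.sum_bool]
    simp [sub_eq_add_neg]
  rw [Finset.prod_congr rfl (fun i _ => h1 i), Fintype.prod_sum]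
  refine Finset.sum_congr rfl fun S _ => ?_
  rw [LinearMap.smul_apply, LinearMap.proj_apply, smul_eq_mul]
  unfold gphi
  rw [← Finset.prod_mul_distrib]
  refine Finset.prod_congr rfl fun i _ => ?_
  split_ifs <;> simp

lemma gz_injective {ι : Type} (V : ι → Type) : Function.Injective (gz V) := (gz_indep V).injective

lemma gpsi_ne_zero_iff (a y : ∀ i, V i) : gpsi V a (gphi V y) ≠ 0 ↔ ∀ i, a i ≠ y i := by
  rw [gpsi_gphi, Finset.prod_ne_zero_iff]
  constructor
  · intro h i hi
    exact h i (mem_univ _) (by rw [hi, sub_self])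
  · intro h i _ hi
    rw [sub_eq_zero] at hi
    have := gz_injective V hi
    simp only [Sigma.mk.injEq, heq_eq_eq, true_and] at this
    exact h i this

/-- exponent vector of a subset -/
noncomputable def expo {ι : Type} [Fintype ι] (S : ι → Bool) : ι →₀ ℕ :=
  Finsupp.equivFunOnFinite.symm (fun i => if S i = true then 0 else 1)

omit [DecidableEq ι] in
lemma expo_injective : Function.Injective (expo (ι := ι)) := by
  intro S S' h
  have h1 := Finsupp.equivFunOnFinite.symm.injective h
  funext i
  have h2 := congrFun h1 i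
  cases hS : S i <;> cases hS' : S' i <;> simp_all

lemma gphi_notMem (E : Finset (∀ i, V i)) (hE : E.card < 2 ^ Fintype.card ι) (y : ∀ i, V i)
    (hy : ∀ t ∈ E, ∀ i, y i ≠ t i) :
    gphi V y ∉ Submodule.span (GF V) (gphi V '' (E : Set (∀ i, V i))) := by
  classical
  set s : Set (Σ i, V i) := {l | l.2 = y l.1} with hs
  set R := Algebra.adjoin ℚ (gz V '' sᶜ) with hR
  have hind : AlgebraicIndependent R (fun i : ι => gz V ⟨i, y i⟩) := by
    have h := ((AlgebraicIndependent.iff_adjoin_image_compl s).1 (gz_indep V)).2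
    have h' := AlgebraicIndependent.comp h (fun i : ι => (⟨⟨i, y i⟩, rfl⟩ : s)) (by
      intro i j hij
      have := congrArg (fun l : s => l.1.1) hij
      exact this)
    exact h'
  have hmem : ∀ t ∈ E, ∀ S, gphi V t S ∈ R := by
    intro t ht S
    refine Subalgebra.prod_mem _ fun i _ => ?_
    split_ifs
    · exact one_mem _
    · exact Algebra.subset_adjoin ⟨⟨i, t i⟩, fun h => hy t ht i h.symm, rfl⟩
  let Lm : ((ι → Bool) → R) →ₗ[R] (E → R) :=
    Matrix.mulVecLin (Matrix.of fun (t : E) (S : ι → Bool) => (⟨gphi V t.1 S, hmem t.1 t.2 S⟩ : R))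
  have hnotinj : ¬ Function.Injective Lm := by
    intro hinj
    have h1 := card_le_of_injective R Lm hinj
    have h2 : Fintype.card (ι → Bool) = 2 ^ Fintype.card ι := by simp
    rw [h2, Fintype.card_coe] at h1
    omega
  obtain ⟨u, hu, hu0⟩ : ∃ u, Lm u = 0 ∧ u ≠ 0 := by
    by_contra hno
    push Not at hno
    exact hnotinj ((injective_iff_map_eq_zero Lm).2 hno)
  -- the functional
  let lam : ((ι → Bool) → GF V) →ₗ[GF V] GF V :=
    ∑ S : ι → Bool, ((u S : R) : GF V) • (LinearMap.proj S : ((ι → Bool) → GF V) →ₗ[GF V] GF V)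
  have hlam : ∀ v, lam v = ∑ S, ((u S : R) : GF V) * v S := by
    intro v
    simp [lam, LinearMap.sum_apply]
  have hker : ∀ t ∈ E, lam (gphi V t) = 0 := by
    intro t ht
    rw [hlam]
    have h1 := congrFun hu ⟨t, ht⟩
    have h2 : (∑ S, (⟨gphi V t S, hmem t ht S⟩ : R) * u S) = 0 := by
      simpa [Lm, Matrix.mulVec, dotProduct] using h1
    have h3 := congrArg (fun a : R => (a : GF V)) h2
    simp only [AddSubmonoidClass.coe_finsetSum, MulMemClass.coe_mul, ZeroMemClass.coe_zero] at h3
    rw [← h3]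
    exact Finset.sum_congr rfl fun S _ => mul_comm _ _
  intro hmemy
  have hle : Submodule.span (GF V) (gphi V '' (E : Set (∀ i, V i))) ≤ LinearMap.ker lam := by
    refine Submodule.span_le.2 ?_
    rintro _ ⟨t, ht, rfl⟩
    exact hker t ht
  have hy0 : lam (gphi V y) = 0 := hle hmemy
  rw [hlam] at hy0
  -- the polynomial
  let p : MvPolynomial ι R := ∑ S : ι → Bool, MvPolynomial.monomial (expo S) (u S)
  have hp : MvPolynomial.aeval (fun i : ι => gz V ⟨i, y i⟩) p = 0 := by
    rw [← hy0]
    simp only [p, map_sum]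
    refine Finset.sum_congr rfl fun S _ => ?_
    rw [MvPolynomial.aeval_monomial]
    congr 1
    rw [Finsupp.prod_fintype _ _ (by simp)]
    unfold gphi
    refine Finset.prod_congr rfl fun i _ => ?_
    simp only [expo, Finsupp.equivFunOnFinite_symm_apply_apply]
    split_ifs <;> simp
  have hp0 : p = 0 := by
    have := hind.eq_zero_of_aeval_eq_zero
    exact this p hp
  apply hu0
  funext S
  have hc : MvPolynomial.coeff (expo S) p = u S := by
    simp only [p, MvPolynomial.coeff_sum, MvPolynomial.coeff_monomial]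
    rw [Finset.sum_eq_single S]
    · simp
    · intro S' _ hne
      rw [if_neg]
      exact fun h => hne (expo_injective h)
    · intro h
      exact absurd (mem_univ S) h
  rw [hp0] at hc
  simpa using hc.symm

end generic

end Pool.Agent.helper82.KCA
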