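import Mathlib
import Pool.Agent.helper82.KCA.Cover
import Pool.Agent.helper82.KCA.Generic

/-!
Covering all words with few members of a family.
-/

namespace Pool.Agent.helper82.KCA

open Finset Pool.Agent.helper36.KC

section root

variable {ι : Type} [Fintype ι] [DecidableEq ι] (V : ι → Type)

/-- the word `y` contains the letter `l` -/
def ginc {ι : Type} (V : ι → Type) (y : ∀ i, V i) (l : Σ i, V i) : Prop := y l.1 = l.2

/-- a family of words avoiding all small sets of letters has vectors spanning everything -/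
lemma generic_full (Y : Set (∀ i, V i))
    (hY : ∀ C : Finset (Σ i, V i), C.card ≤ Fintype.card ι * (2 ^ Fintype.card ι - 1) →
      ∃ y ∈ Y, ∀ l ∈ C, ¬ ginc V y l) :
    Submodule.span (GF V) (gphi V '' Y) = ⊤ := by
  classical
  obtain ⟨E, hE1, hE2, hE3⟩ := exists_extend (F := GF V) (gphi V) Y ⊥
  rw [bot_sup_eq, finrank_bot, zero_add] at hE3
  rw [bot_sup_eq] at hE2
  by_cases htop : Submodule.span (GF V) (gphi V '' (E : Set (∀ i, V i))) = ⊤
  · rw [eq_top_iff, ← htop]
    exact Submodule.span_mono (Set.image_mono hE1)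
  · exfalso
    have hlt := Submodule.finrank_lt htop
    have hM : Module.finrank (GF V) ((ι → Bool) → GF V) = 2 ^ Fintype.card ι := by
      rw [Module.finrank_fintype_fun_eq_card]
      simp
    have hcard : E.card < 2 ^ Fintype.card ι := by omega
    obtain ⟨y, hy, hav⟩ := hY (E.biUnion fun t => univ.image fun i => (⟨i, t i⟩ : Σ i, V i)) (by
      refine card_biUnion_le.trans ?_
      refine (Finset.sum_le_sum fun t _ => card_image_le).trans ?_
      rw [sum_const, card_univ, smul_eq_mul, mul_comm]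
      exact Nat.mul_le_mul_left _ (by omega))
    refine gphi_notMem V E hcard y ?_ (hE2 y hy)
    intro t ht i h
    exact hav ⟨i, t i⟩ (mem_biUnion.2 ⟨t, ht, mem_image.2 ⟨i, mem_univ _, rfl⟩⟩) h

lemma two_pow_le_choose (k : ℕ) : 2 ^ k ≤ (k + 1) * k.choose (k / 2) := by
  calc 2 ^ k = ∑ j ∈ range (k + 1), k.choose j := (Nat.sum_range_choose k).symm
    _ ≤ ∑ _j ∈ range (k + 1), k.choose (k / 2) :=
      Finset.sum_le_sum fun j _ => Nat.choose_le_middle j k
    _ = (k + 1) * k.choose (k / 2) := by rw [sum_const, card_range, smul_eq_mul]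

/-- the first round -/
lemma first_round {m g D k : ℕ} (hg : g = m + D)
    {Λ L F U : Type*} [Field F] [AddCommGroup U] [Module F U] [FiniteDimensional F U]
    {inc : Λ → L → Prop} {φ : Λ → U}
    (hfull : ∀ Y : Set Λ, (∀ C : Finset L, C.card ≤ g → ∃ y ∈ Y, ∀ l ∈ C, ¬ inc y l) →
      Submodule.span F (φ '' Y) = ⊤)
    {S : Set (Λ × (Fin k → Option Bool))} (hS : AvoidsAll' inc (m + k) S) :
    ∃ (T : Finset (Λ × (Fin k → Option Bool))) (Z : (Fin k → Bool) → Submodule F U),
      (∀ p ∈ T, p ∈ S) ∧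
      T.card + ∑ w, Module.finrank F (Z w) ≤
        Module.finrank F U * ((D + 2) * k.choose (k / 2)) ∧
      ∀ w, VT F φ (T : Set (Λ × (Fin k → Option Bool))) w ⊔ Z w = ⊤ := by
  classical
  by_cases hk : D ≤ k
  · obtain ⟨lo, δ, hδ, hlo⟩ : ∃ lo δ : ℕ, δ ≤ 1 ∧ 2 * lo + 1 = k - D + δ := by
      rcases Nat.even_or_odd' (k - D) with ⟨l, hl | hl⟩
      · exact ⟨l, 1, le_rfl, by omega⟩
      · exact ⟨l, 0, by omega, by omega⟩
    have hb : g + (2 * lo + 1 - δ) = m + k := by omega
    obtain ⟨T, Z, hT, hc, hw⟩ := cover_lemma' hfull k lo δ hδ (by omega) S (by rw [hb]; exact hS)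
    refine ⟨T, Z, hT, hc.trans (Nat.mul_le_mul_left _ ?_), hw⟩
    calc ∑ j ∈ Icc lo (k + δ - lo), k.choose j
        ≤ ∑ _j ∈ Icc lo (k + δ - lo), k.choose (k / 2) :=
          Finset.sum_le_sum fun j _ => Nat.choose_le_middle j k
      _ = (k + δ - lo + 1 - lo) * k.choose (k / 2) := by
          rw [sum_const, Nat.card_Icc, smul_eq_mul]
      _ ≤ (D + 2) * k.choose (k / 2) := Nat.mul_le_mul_right _ (by omega)
  · refine ⟨∅, fun _ => ⊤, by simp, ?_, fun w => by simp⟩
    have h1 : ∑ _w : Fin k → Bool, Module.finrank F (⊤ : Submodule F U) =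
        Module.finrank F U * 2 ^ k := by
      rw [finrank_top, sum_const, card_univ, smul_eq_mul, mul_comm]
      simp
    rw [card_empty, zero_add]
    refine h1.le.trans (Nat.mul_le_mul_left _ ?_)
    exact (two_pow_le_choose k).trans (Nat.mul_le_mul_right _ (by omega))

/-- Covering all words with few members of `S`. -/
theorem cover_words' {g D k : ℕ} (hg : g = Fintype.card ι + D)
    (hfull : ∀ Y : Set (∀ i, V i),
      (∀ C : Finset (Σ i, V i), C.card ≤ g → ∃ y ∈ Y, ∀ l ∈ C, ¬ ginc V y l) →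
      Submodule.span (GF V) (gphi V '' Y) = ⊤)
    {S : Set ((∀ i, V i) × (Fin k → Option Bool))}
    (hS : AvoidsAll' (ginc V) (Fintype.card ι + k) S) :
    ∃ T : Finset ((∀ i, V i) × (Fin k → Option Bool)), (∀ p ∈ T, p ∈ S) ∧
      T.card ≤ 2 ^ Fintype.card ι * ((D + 2) * k.choose (k / 2)) ∧
      ∀ (a : ∀ i, V i) (x : Fin k → Bool), ∃ p ∈ T, (∀ i, a i ≠ p.1 i) ∧ MissW p.2 x := by
  classical
  obtain ⟨T0, Z, hT0, hc0, hw0⟩ := first_round (F := GF V) (φ := gphi V) hg hfull hS
  have hM : Module.finrank (GF V) ((ι → Bool) → GF V) = 2 ^ Fintype.card ι := by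
    rw [Module.finrank_fintype_fun_eq_card]
    simp
  rw [hM] at hc0
  have hE : ∀ x : Fin k → Bool, ∃ E : Finset ((∀ i, V i) × (Fin k → Option Bool)),
      (∀ p ∈ E, p ∈ S ∧ MissW p.2 x) ∧
      (∀ p ∈ S, MissW p.2 x → gphi V p.1 ∈
        VT (GF V) (gphi V) (T0 : Set ((∀ i, V i) × (Fin k → Option Bool))) x ⊔
        VT (GF V) (gphi V) (E : Set ((∀ i, V i) × (Fin k → Option Bool))) x) ∧
      E.card ≤ Module.finrank (GF V) (Z x) := by
    intro x
    obtain ⟨E, hE1, hE2, hE3⟩ := exists_extend (F := GF V)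
      (fun p : (∀ i, V i) × (Fin k → Option Bool) => gphi V p.1)
      {p | p ∈ S ∧ MissW p.2 x}
      (VT (GF V) (gphi V) (T0 : Set ((∀ i, V i) × (Fin k → Option Bool))) x)
    have hEeq : Submodule.span (GF V) ((fun p : (∀ i, V i) × (Fin k → Option Bool) =>
        gphi V p.1) '' (E : Set ((∀ i, V i) × (Fin k → Option Bool)))) =
        VT (GF V) (gphi V) (E : Set ((∀ i, V i) × (Fin k → Option Bool))) x := by
      unfold VT
      congr 1
      congr 1
      ext p
      constructor
      · intro hp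
        exact ⟨hp, (hE1 p hp).2⟩
      · intro hp
        exact hp.1
    rw [hEeq] at hE2 hE3
    refine ⟨E, hE1, fun p hp hm => hE2 p ⟨hp, hm⟩, ?_⟩
    have h1 := Submodule.finrank_add_le_finrank_add_finrank
      (VT (GF V) (gphi V) (T0 : Set ((∀ i, V i) × (Fin k → Option Bool))) x) (Z x)
    rw [hw0 x, finrank_top] at h1
    have h2 := Submodule.finrank_le
      (VT (GF V) (gphi V) (T0 : Set ((∀ i, V i) × (Fin k → Option Bool))) x ⊔
        VT (GF V) (gphi V) (E : Set ((∀ i, V i) × (Fin k → Option Bool))) x)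
    omega
  choose E hE1 hE2 hE3 using hE
  refine ⟨T0 ∪ univ.biUnion E, ?_, ?_, ?_⟩
  · intro p hp
    rw [mem_union, mem_biUnion] at hp
    rcases hp with h | ⟨x, -, h⟩
    · exact hT0 p h
    · exact (hE1 x p h).1
  · have h2 := card_union_le T0 (univ.biUnion E)
    have h3 : (univ.biUnion E).card ≤ ∑ x, Module.finrank (GF V) (Z x) :=
      card_biUnion_le.trans (Finset.sum_le_sum fun x _ => hE3 x)
    omega
  · intro a x
    by_contra hno
    push Not at hno
    -- a member of `S` missing `(a, x)`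
    obtain ⟨p, hpS, hpC, hp0, hp1⟩ := hS (univ.image fun i => (⟨i, a i⟩ : Σ i, V i))
      (univ.filter fun i => x i = false) (univ.filter fun i => x i = true) (by
        have h1 : (univ.filter fun i => x i = false).card + (univ.filter fun i => x i = true).card
            = k := by
          have h := Finset.card_filter_add_card_filter_not (s := (univ : Finset (Fin k)))
            (fun i => x i = false)
          simp only [card_univ, Fintype.card_fin, Bool.not_eq_false] at h
          exact h
        have h2 : (univ.image fun i => (⟨i, a i⟩ : Σ i, V i)).card ≤ Fintype.card ι := by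
          refine card_image_le.trans ?_
          rw [card_univ]
        omega)
    have hpm : MissW p.2 x := by
      intro i
      cases hw : x i with
      | false => exact hp0 i (by simp [hw])
      | true => exact hp1 i (by simp [hw])
    have hpa : ∀ i, a i ≠ p.1 i := by
      intro i hi
      exact hpC ⟨i, a i⟩ (mem_image.2 ⟨i, mem_univ _, rfl⟩) hi.symm
    have hmem := hE2 x p hpS hpm
    have hle : VT (GF V) (gphi V) (T0 : Set ((∀ i, V i) × (Fin k → Option Bool))) x ⊔
        VT (GF V) (gphi V) (E x : Set ((∀ i, V i) × (Fin k → Option Bool))) x ≤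
        LinearMap.ker (gpsi V a) := by
      refine sup_le ?_ ?_
      · refine Submodule.span_le.2 ?_
        rintro _ ⟨q, ⟨hq, hqm⟩, rfl⟩
        by_contra hne
        refine hno q (mem_union_left _ hq) ((gpsi_ne_zero_iff V a q.1).1 ?_) hqm
        exact hne
      · refine Submodule.span_le.2 ?_
        rintro _ ⟨q, ⟨hq, hqm⟩, rfl⟩
        by_contra hne
        refine hno q (mem_union_right _ (mem_biUnion.2 ⟨x, mem_univ _, hq⟩))
          ((gpsi_ne_zero_iff V a q.1).1 ?_) hqm
        exact hne
    exact (gpsi_ne_zero_iff V a p.1).2 hpa (hle hmem)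

end root

end Pool.Agent.helper82.KCA
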