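import Mathlib
import Pool.Agent.helper82.KCA.Root

/-!
A sharper criterion for the vectors of a family of words to span everything.
-/

namespace Pool.Agent.helper82.KCA

open Finset Cardinal

section full

variable {ι : Type} [Fintype ι] [DecidableEq ι] (V : ι → Type)

/-- The words whose vectors are killed by a functional, one coefficient of which is `1`, are met by
fewer than `2 ^ m` letters. -/
lemma exists_cover_of_functional [∀ i, Finite (V i)] (lam : (ι → Bool) → GF V) (S0 : ι → Bool)
    (h0 : lam S0 = 1) :
    ∃ C : Finset (Σ i, V i), C.card + 1 ≤ 2 ^ Fintype.card ι ∧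
      ∀ y : ∀ i, V i, ∑ S, lam S * gphi V y S = 0 → ∃ l ∈ C, y l.1 = l.2 := by
  classical
  let κ : Type := {S : ι → Bool // S ≠ S0}
  let c : κ → GF V := fun S => lam S.1
  let ev : MvPolynomial κ ℚ →ₐ[ℚ] GF V := MvPolynomial.aeval c
  let R : Subalgebra ℚ (GF V) := ev.range
  have hmem : ∀ S, lam S ∈ R := by
    intro S
    by_cases h : S = S0
    · rw [h, h0]; exact one_mem _
    · exact ⟨MvPolynomial.X ⟨S, h⟩, by simp [ev, c]⟩
  have hκ : Fintype.card κ + 1 = 2 ^ Fintype.card ι := by
    have h1 : Fintype.card κ = Fintype.card (ι → Bool) - 1 := by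
      rw [Fintype.card_subtype_compl, Fintype.card_subtype_eq]
    have h2 : Fintype.card (ι → Bool) = 2 ^ Fintype.card ι := by simp
    have h3 : 0 < 2 ^ Fintype.card ι := by positivity
    omega
  have htr : Algebra.trdeg ℚ R ≤ #κ := by
    have h1 := trdeg_le_of_surjective (R := ℚ) ev.rangeRestrict
      ev.rangeRestrict_surjective
    rw [MvPolynomial.trdeg_of_isDomain] at h1
    simpa using h1
  have halg : Algebra.IsAlgebraic (Algebra.adjoin R (Set.range (gz V))) (GF V) := by
    constructor
    have hin : ∀ a : MvPolynomial (Σ i, V i) ℚ,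
        algebraMap (MvPolynomial (Σ i, V i) ℚ) (GF V) a ∈
          Algebra.adjoin R (Set.range (gz V)) := by
      intro a
      induction a using MvPolynomial.induction_on with
      | C q =>
        have : algebraMap (MvPolynomial (Σ i, V i) ℚ) (GF V) (MvPolynomial.C q) =
            algebraMap R (GF V) (algebraMap ℚ R q) := by
          rw [← IsScalarTower.algebraMap_apply ℚ R (GF V)]
          rw [← MvPolynomial.algebraMap_eq, ← IsScalarTower.algebraMap_apply]
        rw [this]
        exact Subalgebra.algebraMap_mem _ _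
      | add p q hp hq => rw [map_add]; exact add_mem hp hq
      | mul_X p l hp =>
        rw [map_mul]
        exact mul_mem hp (Algebra.subset_adjoin ⟨l, rfl⟩)
    intro x
    obtain ⟨a, b, hb, rfl⟩ := IsFractionRing.div_surjective (A := MvPolynomial (Σ i, V i) ℚ) x
    have ha := isAlgebraic_algebraMap (A := GF V)
      (⟨_, hin a⟩ : Algebra.adjoin R (Set.range (gz V)))
    have hb' := isAlgebraic_algebraMap (A := GF V)
      (⟨_, hin b⟩ : Algebra.adjoin R (Set.range (gz V)))
    rw [div_eq_mul_inv]
    exact ha.mul hb'.inv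
  obtain ⟨t, hts, ht⟩ := exists_isTranscendenceBasis_subset (R := R) (Set.range (gz V))
  have hadd := trdeg_add_eq ℚ R (A := GF V)
  have hL := (gz_indep V).cardinalMk_le_trdeg
  rw [← hadd, ← ht.cardinalMk_eq_trdeg] at hL
  have hfinL : Finite (Σ i, V i) := inferInstance
  let _ : Fintype (Σ i, V i) := Fintype.ofFinite _
  -- letters in the basis
  let P : Finset (Σ i, V i) := univ.filter fun l => gz V l ∈ t
  have htP : #t ≤ (P.card : Cardinal) := by
    have h1 : ∀ a : t, ∃ l ∈ P, gz V l = a.1 := by
      intro a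
      obtain ⟨l, hl⟩ := hts a.2
      exact ⟨l, by simp [P, hl, a.2], hl⟩
    choose f hf1 hf2 using h1
    have h2 : Cardinal.mk t ≤ Cardinal.mk P := by
      refine Cardinal.mk_le_of_injective (f := fun a : t => (⟨f a, hf1 a⟩ : P)) ?_
      intro a b hab
      have h3 : f a = f b := congrArg Subtype.val hab
      exact Subtype.ext (by rw [← hf2 a, ← hf2 b, h3])
    simpa using h2
  have hnat : Fintype.card (Σ i, V i) ≤ Fintype.card κ + P.card := by
    have h1 : (#(Σ i, V i) : Cardinal) ≤ #κ + (P.card : Cardinal) :=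
      hL.trans (add_le_add htr htP)
    rw [Cardinal.mk_fintype, Cardinal.mk_fintype] at h1
    exact_mod_cast h1
  refine ⟨Pᶜ, ?_, ?_⟩
  · rw [card_compl]
    omega
  · intro y hy
    by_contra hno
    push Not at hno
    have hin : ∀ i, gz V ⟨i, y i⟩ ∈ t := by
      intro i
      by_contra h
      refine hno ⟨i, y i⟩ ?_ rfl
      simp [P, h]
    have hind : AlgebraicIndependent R (fun i : ι => gz V ⟨i, y i⟩) := by
      have h' := AlgebraicIndependent.comp ht.1 (fun i : ι => (⟨gz V ⟨i, y i⟩, hin i⟩ : t)) (by
        intro i j hij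
        have h1 : gz V ⟨i, y i⟩ = gz V ⟨j, y j⟩ := congrArg Subtype.val hij
        have h2 := gz_injective V h1
        exact congrArg Sigma.fst h2)
      exact h'
    let p : MvPolynomial ι R :=
      ∑ S : ι → Bool, MvPolynomial.monomial (expo S) (⟨lam S, hmem S⟩ : R)
    have hp : MvPolynomial.aeval (fun i : ι => gz V ⟨i, y i⟩) p = 0 := by
      rw [← hy]
      simp only [p, map_sum]
      refine Finset.sum_congr rfl fun S _ => ?_
      rw [MvPolynomial.aeval_monomial]
      congr 1
      rw [Finsupp.prod_fintype _ _ (by simp)]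
      unfold gphi
      refine Finset.prod_congr rfl fun i _ => ?_
      simp only [expo, Finsupp.equivFunOnFinite_symm_apply_apply]
      split_ifs <;> simp
    have hp0 : p = 0 := hind.eq_zero_of_aeval_eq_zero p hp
    have hc : MvPolynomial.coeff (expo S0) p = (⟨lam S0, hmem S0⟩ : R) := by
      simp only [p, MvPolynomial.coeff_sum, MvPolynomial.coeff_monomial]
      rw [Finset.sum_eq_single S0]
      · simp
      · intro S' _ hne
        rw [if_neg]
        exact fun h => hne (expo_injective h)
      · intro h
        exact absurd (mem_univ S0) h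
    rw [hp0] at hc
    have h1 : (0 : GF V) = lam S0 := by
      have := congrArg Subtype.val hc
      simpa using this
    rw [h0] at h1
    exact zero_ne_one h1

/-- A family of words avoiding all sets of fewer than `2 ^ m` letters has vectors spanning
everything. -/
lemma generic_full' [∀ i, Finite (V i)] (Y : Set (∀ i, V i))
    (hY : ∀ C : Finset (Σ i, V i), C.card ≤ 2 ^ Fintype.card ι - 1 →
      ∃ y ∈ Y, ∀ l ∈ C, ¬ ginc V y l) :
    Submodule.span (GF V) (gphi V '' Y) = ⊤ := by
  classical
  by_contra htop
  obtain ⟨f, hf0, hf⟩ := Submodule.exists_le_ker_of_lt_top _ (lt_top_iff_ne_top.2 htop)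
  have hfv : ∀ v, f v = ∑ S, f (Pi.single S 1) * v S := by
    intro v
    have h1 : v = ∑ S, v S • (Pi.single S (1 : GF V) : (ι → Bool) → GF V) := by
      funext S
      simp [Finset.sum_apply, Pi.single_apply]
    conv_lhs => rw [h1]
    rw [map_sum]
    refine Finset.sum_congr rfl fun S _ => ?_
    rw [map_smul, smul_eq_mul, mul_comm]
  obtain ⟨S0, hS0⟩ : ∃ S0, f (Pi.single S0 1) ≠ 0 := by
    by_contra hno
    push Not at hno
    apply hf0
    refine LinearMap.ext fun v => ?_
    rw [hfv]
    simp [hno]
  obtain ⟨C, hC, hCy⟩ := exists_cover_of_functional V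
    (fun S => f (Pi.single S 1) / f (Pi.single S0 1)) S0 (div_self hS0)
  obtain ⟨y, hy, hav⟩ := hY C (by omega)
  have h1 : f (gphi V y) = 0 := hf (Submodule.subset_span ⟨y, hy, rfl⟩)
  obtain ⟨l, hl, hyl⟩ := hCy y (by
    rw [hfv] at h1
    have : ∑ S, f (Pi.single S 1) / f (Pi.single S0 1) * gphi V y S =
        (∑ S, f (Pi.single S 1) * gphi V y S) / f (Pi.single S0 1) := by
      rw [Finset.sum_div]
      refine Finset.sum_congr rfl fun S _ => ?_
      ring
    rw [this, h1, zero_div])
  exact hav l hl hyl

end full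

end Pool.Agent.helper82.KCA
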