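import Mathlib
import Pool.Agent.helper36.KCDefs

/-!
Definitions for hypergraphs in which all but `m` parts have at most two vertices of degree at least
two.
-/

namespace Pool.Agent.helper82.KCA

open Pool.Agent.helper36.KC

/-- In all but at most `m` parts at most two vertices lie in more than one edge. -/
def AlmostTwoBranching {r : ℕ} {V : Fin r → Type} (m : ℕ) (H : Set (Edge V)) : Prop :=
  ∃ A : Finset (Fin r), A.card ≤ m ∧ ∀ i ∉ A, ∃ u v : V i,
    ∀ e ∈ H, ∀ f ∈ H, e i = f i → e i ≠ u → e i ≠ v → e = f

/-- The version of `Forces` for hypergraphs in which all but at most `m` parts have at most two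
vertices of degree at least two. -/
def ForcesAlmost (m r t k : ℕ) : Prop :=
  ∀ (V : Fin r → Type) [∀ i, Finite (V i)] (H : Set (Edge V)),
    AlmostTwoBranching m H → HasIntersectingCovers H k → coverNumber H ≤ t

/-- The parameter `kc_r(t)` restricted to hypergraphs in which all but at most `m` parts have at
most two vertices of degree at least two. -/
noncomputable def kcAlmost (m r t : ℕ) : ℕ := sInf {k | 1 ≤ k ∧ ForcesAlmost m r t k}

end Pool.Agent.helper82.KCA
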