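import Mathlib
import Pool.Agent.helper36.KCDefs
import Pool.Agent.helper36.KCBin
import Pool.Agent.helper36.KCBinLower
import Pool.Agent.helper82.KCA.Root
import Pool.Agent.helper82.KCA.Defs

/-!
Hypergraphs in which all but `m` parts have at most two vertices of degree at least two.
-/

namespace Pool.Agent.helper82.KCA

open Finset Pool.Agent.helper36.KC

/-- Upper bound when `m` parts are arbitrary, for a budget of fullness `m + D`. -/
theorem forcesAlmost_upper_of {m r D : ℕ} (hm : 1 ≤ m) (hmr : m ≤ r)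
    (hfull : ∀ (ι : Type) [Fintype ι] [DecidableEq ι] (V : ι → Type) [∀ i, Finite (V i)],
      Fintype.card ι = m → ∀ Y : Set (∀ i, V i),
      (∀ C : Finset (Σ i, V i), C.card ≤ m + D → ∃ y ∈ Y, ∀ l ∈ C, ¬ ginc V y l) →
      Submodule.span (GF V) (gphi V '' Y) = ⊤) :
    ForcesAlmost m r r (2 ^ m * ((D + 2) * (r - m).choose ((r - m) / 2))) := by
  classical
  intro V hfin H hTB hH
  obtain ⟨c, hc1, -⟩ := hH
  by_contra hcon
  push Not at hcon
  obtain ⟨A0, hA0, huv0⟩ := hTB
  obtain ⟨A, hA0A, hA⟩ := Finset.exists_superset_card_eq hA0 (by rw [Fintype.card_fin]; exact hmr)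
  have huv1 : ∀ i : {i // i ∉ A}, ∃ u v : V i.1,
      ∀ e ∈ H, ∀ f ∈ H, e i.1 = f i.1 → e i.1 ≠ u → e i.1 ≠ v → e = f :=
    fun i => huv0 i.1 (fun h => i.2 (hA0A h))
  choose u v huv using huv1
  -- small vertex sets are not covers
  have hnc : ∀ C : Finset (Σ i, V i), C.card ≤ r → ∃ e ∈ H, ∀ i, (⟨i, e i⟩ : Σ i, V i) ∉ C := by
    intro C hC
    by_contra hno
    push Not at hno
    have : coverNumber H ≤ C.card := Nat.sInf_le ⟨C, hno, rfl⟩
    omega
  -- indices
  have hcι : Fintype.card {i // i ∈ A} = m := by rw [Fintype.card_coe, hA]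
  have hcB : Fintype.card {i // i ∉ A} = r - m := by
    have := Fintype.card_subtype_compl (fun i : Fin r => i ∈ A)
    rw [this, Fintype.card_fin, hcι]
  let σ : Fin (r - m) ≃ {i // i ∉ A} := (Fintype.equivFinOfCardEq hcB).symm
  -- the pair of words of an edge
  let ψ : Edge V → (∀ i : {i // i ∈ A}, V i.1) × (Fin (r - m) → Option Bool) := fun e =>
    (fun i => e i.1, fun j => if e (σ j).1 = u (σ j) then some false
      else if e (σ j).1 = v (σ j) then some true else none)
  have hψf : ∀ e j, (ψ e).2 j = some false → e (σ j).1 = u (σ j) := by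
    intro e j h
    by_contra hne
    simp only [ψ, if_neg hne] at h
    split_ifs at h <;> simp at h
  have hψt : ∀ e j, (ψ e).2 j = some true → e (σ j).1 = v (σ j) := by
    intro e j h
    by_contra hne
    simp only [ψ, if_neg hne] at h
    split_ifs at h <;> simp at h
  have hav : AvoidsAll' (ginc fun i : {i // i ∈ A} => V i.1)
      (Fintype.card {i // i ∈ A} + (r - m)) (ψ '' H) := by
    intro C X Y hXY
    obtain ⟨e, he, hm'⟩ := hnc
      (C.image (fun l => (⟨l.1.1, l.2⟩ : Σ i, V i)) ∪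
        (X.image (fun j => (⟨(σ j).1, u (σ j)⟩ : Σ i, V i)) ∪
        Y.image (fun j => (⟨(σ j).1, v (σ j)⟩ : Σ i, V i)))) (by
        have h1 := card_union_le (C.image (fun l => (⟨l.1.1, l.2⟩ : Σ i, V i)))
          (X.image (fun j => (⟨(σ j).1, u (σ j)⟩ : Σ i, V i)) ∪
            Y.image (fun j => (⟨(σ j).1, v (σ j)⟩ : Σ i, V i)))
        have h2 := card_union_le (X.image (fun j => (⟨(σ j).1, u (σ j)⟩ : Σ i, V i)))
            (Y.image (fun j => (⟨(σ j).1, v (σ j)⟩ : Σ i, V i)))
        have h3 := card_image_le (s := C) (f := fun l => (⟨l.1.1, l.2⟩ : Σ i, V i))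
        have h4 := card_image_le (s := X) (f := fun j => (⟨(σ j).1, u (σ j)⟩ : Σ i, V i))
        have h5 := card_image_le (s := Y) (f := fun j => (⟨(σ j).1, v (σ j)⟩ : Σ i, V i))
        rw [hcι] at hXY
        omega)
    refine ⟨ψ e, ⟨e, he, rfl⟩, ?_, ?_, ?_⟩
    · intro l hl hinc
      refine hm' l.1.1 (mem_union_left _ (mem_image.2 ⟨l, hl, ?_⟩))
      have : e l.1.1 = l.2 := hinc
      rw [this]
    · intro j hj h
      refine hm' (σ j).1 (mem_union_right _ (mem_union_left _ (mem_image.2 ⟨j, hj, ?_⟩)))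
      rw [hψf e j h]
    · intro j hj h
      refine hm' (σ j).1 (mem_union_right _ (mem_union_right _ (mem_image.2 ⟨j, hj, ?_⟩)))
      rw [hψt e j h]
  obtain ⟨T, hT, hTc, hTw⟩ := cover_words' (fun i : {i // i ∈ A} => V i.1)
    (g := m + D) (D := D) (by rw [hcι])
    (hfull {i // i ∈ A} (fun i : {i // i ∈ A} => V i.1) hcι) hav
  rw [hcι] at hTc
  obtain ⟨e₀, he₀, -⟩ := hnc ∅ (by simp)
  have hT' : ∀ t, ∃ e : Edge V, t ∈ T → e ∈ H ∧ ψ e = t := by
    intro t
    by_cases ht : t ∈ T
    · obtain ⟨e, he, hψe⟩ := hT t ht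
      exact ⟨e, fun _ => ⟨he, hψe⟩⟩
    · exact ⟨e₀, fun h => absurd h ht⟩
  choose ed hed using hT'
  have hed1 : ∀ t ∈ T, ed t ∈ H := fun t ht => (hed t ht).1
  have hed2 : ∀ t ∈ T, ψ (ed t) = t := fun t ht => (hed t ht).2
  -- the covering edge
  have hSH : ∀ f ∈ T.image ed, f ∈ H := by
    intro f hf
    rw [mem_image] at hf
    obtain ⟨t, ht, rfl⟩ := hf
    exact hed1 t ht
  obtain ⟨hEH, hEmeet⟩ := hc1 (T.image ed) hSH (card_image_le.trans hTc)
  set E := c (T.image ed) with hE
  let x : Fin (r - m) → Bool := fun j => if E (σ j).1 = u (σ j) then false else true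
  obtain ⟨t, htT, hta, htx⟩ := hTw (fun i => E i.1) x
  obtain ⟨i, hi⟩ := hEmeet (ed t) (mem_image_of_mem ed htT)
  have hψ : ψ (ed t) = t := hed2 t htT
  have ht1 : ∀ i : {i // i ∈ A}, t.1 i = ed t i.1 := by
    intro i
    rw [← hψ, hψ]
    exact (congrFun (congrArg Prod.fst hψ) i).symm
  by_cases hiA : i ∈ A
  · apply hta ⟨i, hiA⟩
    rw [ht1 ⟨i, hiA⟩]
    exact hi
  · obtain ⟨j, hj⟩ := σ.surjective ⟨i, hiA⟩
    have hji : (σ j).1 = i := by rw [hj]
    subst hji
    have ht2 : t.2 j = if ed t (σ j).1 = u (σ j) then some false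
        else if ed t (σ j).1 = v (σ j) then some true else none :=
      (congrFun (congrArg Prod.snd hψ) j).symm
    have hi1 : E (σ j).1 ≠ u (σ j) := by
      intro h
      have h2 : t.2 j = some false := by
        rw [ht2, if_pos (by rw [← hi, h])]
      have h3 : x j = false := by simp only [x]; rw [if_pos h]
      exact htx j (by rw [h2, h3])
    have hi2 : E (σ j).1 ≠ v (σ j) := by
      intro h
      have h2 : t.2 j = some true := by
        rw [ht2, if_neg (by rw [← hi]; exact hi1), if_pos (by rw [← hi, h])]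
      have h3 : x j = true := by simp only [x]; rw [if_neg hi1]
      exact htx j (by rw [h2, h3])
    have hEt : E = ed t := huv (σ j) E hEH (ed t) (hed1 t htT) hi hi1 hi2
    -- an arbitrary part
    have hpos : 0 < A.card := by omega
    obtain ⟨a, ha⟩ := card_pos.1 hpos
    apply hta ⟨a, ha⟩
    rw [ht1 ⟨a, ha⟩, ← hEt]

theorem forcesAlmost_zero_iff {r t k : ℕ} : ForcesAlmost 0 r t k ↔ ForcesTwo r t k := by
  constructor
  · intro h V _ H hTB hH
    exact h V H ⟨∅, by simp, fun i _ => hTB i⟩ hH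
  · intro h V _ H ⟨A, hA, hTB⟩ hH
    refine h V H (fun i => hTB i ?_) hH
    have : A = ∅ := by rw [← card_eq_zero]; omega
    rw [this]
    simp

theorem kcAlmost_zero (r t : ℕ) : kcAlmost 0 r t = kcTwo r t := by
  unfold kcAlmost kcTwo
  congr 1
  ext k
  rw [Set.mem_ofPred_eq, Set.mem_ofPred_eq, forcesAlmost_zero_iff]

theorem kcAlmost_self (r t : ℕ) : kcAlmost r r t = kc r t := by
  unfold kcAlmost kc
  congr 1
  ext k
  rw [Set.mem_ofPred_eq, Set.mem_ofPred_eq]
  refine and_congr_right fun _ => ?_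
  constructor
  · intro h V _ H hH
    exact h V H ⟨univ, by simp, fun i hi => absurd (mem_univ i) hi⟩ hH
  · intro h V _ H _ hH
    exact h V H hH

end Pool.Agent.helper82.KCA
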