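import Mathlib
import Pool.Agent.helper82.KCA.Main
import Pool.Agent.helper82.KCA.Fullness

/-!
Bounds and asymptotics for hypergraphs in which all but `m` parts have at most two vertices of
degree at least two.
-/

namespace Pool.Agent.helper82.KCA

open Finset Pool.Agent.helper36.KC

/-- Upper bound when `m` parts are arbitrary. -/
theorem forcesAlmost_upper {m r : ℕ} (hm : 1 ≤ m) (hmr : m ≤ r) :
    ForcesAlmost m r r (2 ^ m * ((2 ^ m - m + 1) * (r - m).choose ((r - m) / 2))) := by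
  have h2 : m + 1 ≤ 2 ^ m := Nat.lt_two_pow_self
  have h3 := forcesAlmost_upper_of (D := 2 ^ m - 1 - m) hm hmr (by
    intro ι _ _ V _ hc Y hY
    refine generic_full' V Y ?_
    rw [hc]
    intro C hC
    exact hY C (by omega))
  have h4 : 2 ^ m - 1 - m + 2 = 2 ^ m - m + 1 := by omega
  rw [h4] at h3
  exact h3

theorem kcAlmost_mem {m r : ℕ} (hm : 1 ≤ m) (hmr : m ≤ r) :
    2 ^ m * ((2 ^ m - m + 1) * (r - m).choose ((r - m) / 2)) ∈
      {k | 1 ≤ k ∧ ForcesAlmost m r r k} := by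
  refine ⟨?_, forcesAlmost_upper hm hmr⟩
  have h1 : 0 < (r - m).choose ((r - m) / 2) := Nat.choose_pos (by omega)
  exact Nat.mul_pos (by positivity) (Nat.mul_pos (by omega) h1)

theorem kcAlmost_le {m r : ℕ} (hm : 1 ≤ m) (hmr : m ≤ r) :
    kcAlmost m r r ≤ 2 ^ m * ((2 ^ m - m + 1) * (r - m).choose ((r - m) / 2)) :=
  Nat.sInf_le (kcAlmost_mem hm hmr)

theorem kcTwo_le_kcAlmost {m r : ℕ} (hmr : m ≤ r) (hr : 1 ≤ r) :
    kcTwo r r ≤ kcAlmost m r r := by
  rcases Nat.eq_zero_or_pos m with rfl | hm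
  · rw [kcAlmost_zero]
  · have hmem : kcAlmost m r r ∈ {k | 1 ≤ k ∧ ForcesAlmost m r r k} :=
      Nat.sInf_mem ⟨_, kcAlmost_mem hm hmr⟩
    refine Nat.sInf_le ⟨hmem.1, ?_⟩
    intro V _ H hTB hH
    exact hmem.2 V H ⟨∅, by simp, fun i _ => hTB i⟩ hH

theorem kcAlmost_lower {m r : ℕ} (hr : 5 ≤ r) (hmr : m ≤ r) :
    (r + 1).choose (r / 2 + 2) + 1 ≤ kcAlmost m r r :=
  (kcTwo_lower hr).trans (kcTwo_le_kcAlmost hmr (by omega))

/-! ### Central binomial coefficients -/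

lemma cb_upper (n : ℕ) : (2 * n + 1) * (n.centralBinom) ^ 2 ≤ 4 ^ (2 * n) := by
  induction n with
  | zero => simp
  | succ n ih =>
    have h := Nat.succ_mul_centralBinom_succ n
    -- (n+1) cb (n+1) = 2 (2n+1) cb n
    have h1 : (n + 1) ^ 2 * ((2 * (n + 1) + 1) * ((n + 1).centralBinom) ^ 2) =
        (2 * n + 3) * (4 * (2 * n + 1)) * ((2 * n + 1) * (n.centralBinom) ^ 2) := by
      calc (n + 1) ^ 2 * ((2 * (n + 1) + 1) * ((n + 1).centralBinom) ^ 2)
          = (2 * n + 3) * ((n + 1) * (n + 1).centralBinom) ^ 2 := by ring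
        _ = (2 * n + 3) * (2 * (2 * n + 1) * n.centralBinom) ^ 2 := by rw [h]
        _ = _ := by ring
    have h2 : (n + 1) ^ 2 * ((2 * (n + 1) + 1) * ((n + 1).centralBinom) ^ 2) ≤
        (n + 1) ^ 2 * 4 ^ (2 * (n + 1)) := by
      rw [h1]
      calc (2 * n + 3) * (4 * (2 * n + 1)) * ((2 * n + 1) * (n.centralBinom) ^ 2)
          ≤ (2 * n + 3) * (4 * (2 * n + 1)) * 4 ^ (2 * n) := Nat.mul_le_mul_left _ ih
        _ ≤ (16 * (n + 1) ^ 2) * 4 ^ (2 * n) := by
            refine Nat.mul_le_mul_right _ ?_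
            nlinarith
        _ = (n + 1) ^ 2 * 4 ^ (2 * (n + 1)) := by
            rw [show 2 * (n + 1) = 2 * n + 2 by ring, pow_add]; ring
    exact Nat.le_of_mul_le_mul_left h2 (by positivity)

lemma cb_lower (n : ℕ) (hn : 1 ≤ n) : 4 ^ (2 * n) ≤ 4 * n * (n.centralBinom) ^ 2 := by
  induction n, hn using Nat.le_induction with
  | base => decide
  | succ n hn ih =>
    have h := Nat.succ_mul_centralBinom_succ n
    have h1 : n * (n + 1) * (4 * (n + 1) * ((n + 1).centralBinom) ^ 2) =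
        4 * (2 * n + 1) ^ 2 * (4 * n * (n.centralBinom) ^ 2) := by
      calc n * (n + 1) * (4 * (n + 1) * ((n + 1).centralBinom) ^ 2)
          = 4 * n * ((n + 1) * (n + 1).centralBinom) ^ 2 := by ring
        _ = 4 * n * (2 * (2 * n + 1) * n.centralBinom) ^ 2 := by rw [h]
        _ = _ := by ring
    have h2 : n * (n + 1) * 4 ^ (2 * (n + 1)) ≤
        n * (n + 1) * (4 * (n + 1) * ((n + 1).centralBinom) ^ 2) := by
      rw [h1]
      calc n * (n + 1) * 4 ^ (2 * (n + 1)) = (16 * (n * (n + 1))) * 4 ^ (2 * n) := by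
            rw [show 2 * (n + 1) = 2 * n + 2 by ring, pow_add]; ring
        _ ≤ (4 * (2 * n + 1) ^ 2) * 4 ^ (2 * n) := by
            refine Nat.mul_le_mul_right _ ?_
            nlinarith
        _ ≤ _ := Nat.mul_le_mul_left _ ih
    exact Nat.le_of_mul_le_mul_left h2 (by positivity)

lemma two_mul_choose_odd (n : ℕ) :
    2 * (2 * n + 1).choose n = (n + 1).centralBinom := by
  rw [Nat.centralBinom, show 2 * (n + 1) = (2 * n + 1) + 1 by ring, Nat.choose_succ_succ,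
    ← Nat.choose_symm_half n]
  ring

lemma mid_upper (k : ℕ) : (k + 1) * (k.choose (k / 2)) ^ 2 ≤ 4 ^ k := by
  rcases Nat.even_or_odd' k with ⟨n, rfl | rfl⟩
  · have h1 : 2 * n / 2 = n := by omega
    rw [h1]
    exact cb_upper n
  · have h1 : (2 * n + 1) / 2 = n := by omega
    rw [h1]
    have h2 := cb_upper (n + 1)
    rw [← two_mul_choose_odd] at h2
    have h3 : 4 ^ (2 * (n + 1)) = 4 * 4 ^ (2 * n + 1) := by
      rw [show 2 * (n + 1) = (2 * n + 1) + 1 by ring, pow_succ]; ring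
    rw [h3] at h2
    nlinarith [h2]

lemma mid_lower (k : ℕ) : 4 ^ k ≤ 2 * (k + 1) * (k.choose (k / 2)) ^ 2 := by
  rcases Nat.even_or_odd' k with ⟨n, rfl | rfl⟩
  · have h1 : 2 * n / 2 = n := by omega
    rw [h1]
    rcases Nat.eq_zero_or_pos n with rfl | hn
    · simp
    · have h2 := cb_lower n hn
      refine h2.trans (Nat.mul_le_mul_right _ (by omega))
  · have h1 : (2 * n + 1) / 2 = n := by omega
    rw [h1]
    have h2 := cb_lower (n + 1) (by omega)
    rw [← two_mul_choose_odd] at h2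
    have h3 : 4 ^ (2 * (n + 1)) = 4 * 4 ^ (2 * n + 1) := by
      rw [show 2 * (n + 1) = (2 * n + 1) + 1 by ring, pow_succ]; ring
    rw [h3] at h2
    nlinarith [h2]

lemma mid_upper_real (k : ℕ) : ((k.choose (k / 2) : ℕ) : ℝ) ≤ 2 ^ k / √((k : ℝ) + 1) := by
  have h1 := mid_upper k
  have h2 : ((k : ℝ) + 1) * ((k.choose (k / 2) : ℕ) : ℝ) ^ 2 ≤ (2 ^ k) ^ 2 := by
    have h3 : (((k + 1) * (k.choose (k / 2)) ^ 2 : ℕ) : ℝ) ≤ ((4 ^ k : ℕ) : ℝ) := by
      exact_mod_cast h1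
    push_cast at h3
    have h4 : ((2 : ℝ) ^ k) ^ 2 = 4 ^ k := by rw [← pow_mul, mul_comm, pow_mul]; norm_num
    rw [h4]
    exact h3
  have hpos : (0 : ℝ) < √((k : ℝ) + 1) := Real.sqrt_pos.2 (by positivity)
  rw [le_div_iff₀ hpos]
  refine le_of_sq_le_sq ?_ (by positivity)
  rw [mul_pow, Real.sq_sqrt (by positivity)]
  linarith

lemma mid_lower_real (k : ℕ) :
    2 ^ k / √(2 * ((k : ℝ) + 1)) ≤ ((k.choose (k / 2) : ℕ) : ℝ) := by
  have h1 := mid_lower k
  have h2 : (2 ^ k) ^ 2 ≤ (2 * ((k : ℝ) + 1)) * ((k.choose (k / 2) : ℕ) : ℝ) ^ 2 := by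
    have h3 : ((4 ^ k : ℕ) : ℝ) ≤ ((2 * (k + 1) * (k.choose (k / 2)) ^ 2 : ℕ) : ℝ) := by
      exact_mod_cast h1
    push_cast at h3
    have h4 : ((2 : ℝ) ^ k) ^ 2 = 4 ^ k := by rw [← pow_mul, mul_comm, pow_mul]; norm_num
    rw [h4]
    exact h3
  have hpos : (0 : ℝ) < √(2 * ((k : ℝ) + 1)) := Real.sqrt_pos.2 (by positivity)
  rw [div_le_iff₀ hpos]
  refine le_of_sq_le_sq ?_ (by positivity)
  rw [mul_pow, Real.sq_sqrt (by positivity)]
  linarith

end Pool.Agent.helper82.KCA
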