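import Mathlib
import Pool.Agent.helper82.KCA.Final

/-!
Asymptotics for hypergraphs in which all but `m` parts have at most two vertices of degree at least
two.
-/

namespace Pool.Agent.helper82.KCA

open Finset Filter Asymptotics Pool.Agent.helper36.KC

/-- the middle binomial bound for `m = 1` -/
lemma four_mul_mid_le (r : ℕ) (hr : 1 ≤ r) :
    r * (4 * (r - 1).choose ((r - 1) / 2)) ≤ (r + 1) * (r + 1).choose ((r + 1) / 2) := by
  obtain ⟨s, rfl⟩ : ∃ s, r = s + 1 := ⟨r - 1, by omega⟩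
  rcases Nat.even_or_odd' s with ⟨n, rfl | rfl⟩
  · have h1 : 2 * n + 1 - 1 = 2 * n := by omega
    have h2 : 2 * n / 2 = n := by omega
    have h3 : (2 * n + 1 + 1) / 2 = n + 1 := by omega
    rw [h1, h2, h3]
    have h := Nat.succ_mul_centralBinom_succ n
    have h4 : (2 * n).choose n = n.centralBinom := rfl
    have h5 : (2 * n + 1 + 1).choose (n + 1) = (n + 1).centralBinom := by
      rw [Nat.centralBinom, show 2 * (n + 1) = 2 * n + 1 + 1 by ring]
    rw [h4, h5]
    have h6 : (2 * n + 1 + 1) * (n + 1).centralBinom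
        = 2 * ((n + 1) * (n + 1).centralBinom) := by ring
    rw [h6, h]
    exact le_of_eq (by ring)
  · have h1 : 2 * n + 1 + 1 - 1 = 2 * n + 1 := by omega
    have h2 : (2 * n + 1) / 2 = n := by omega
    have h3 : (2 * n + 1 + 1 + 1) / 2 = n + 1 := by omega
    rw [h1, h2, h3]
    have e1 := two_mul_choose_odd n
    have e2 := two_mul_choose_odd (n + 1)
    have h := Nat.succ_mul_centralBinom_succ (n + 1)
    rw [show 2 * (n + 1) + 1 = 2 * n + 1 + 1 + 1 by ring] at e2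
    rw [← e1, ← e2] at h
    have h4 : (n + 2) * (2 * n + 1 + 1 + 1).choose (n + 1)
        = 2 * (2 * n + 3) * (2 * n + 1).choose n := by
      have h5 : 2 * ((n + 2) * (2 * n + 1 + 1 + 1).choose (n + 1))
          = 2 * (2 * (2 * n + 3) * (2 * n + 1).choose n) := by
        calc 2 * ((n + 2) * (2 * n + 1 + 1 + 1).choose (n + 1))
            = (n + 1 + 1) * (2 * (2 * n + 1 + 1 + 1).choose (n + 1)) := by ring
          _ = 2 * (2 * (n + 1) + 1) * (2 * (2 * n + 1).choose n) := h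
          _ = _ := by ring
      exact Nat.eq_of_mul_eq_mul_left (by norm_num) h5
    refine Nat.le_of_mul_le_mul_left (c := n + 2) ?_ (by omega)
    calc (n + 2) * ((2 * n + 1 + 1) * (4 * (2 * n + 1).choose n))
        = (8 * (n + 1) * (n + 2)) * (2 * n + 1).choose n := by ring
      _ ≤ (2 * (2 * n + 3) * (2 * n + 3)) * (2 * n + 1).choose n :=
          Nat.mul_le_mul_right _ (by nlinarith)
      _ = (2 * n + 1 + 1 + 1) * (2 * (2 * n + 3) * (2 * n + 1).choose n) := by ring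
      _ = (2 * n + 1 + 1 + 1) * ((n + 2) * (2 * n + 1 + 1 + 1).choose (n + 1)) := by rw [h4]
      _ = (n + 2) * ((2 * n + 1 + 1 + 1) * (2 * n + 1 + 1 + 1).choose (n + 1)) := by ring

/-- exact asymptotics for at most one arbitrary part -/
theorem kcAlmost_asymp {m : ℕ} (hm : m ≤ 1) :
    Tendsto (fun r : ℕ => (kcAlmost m r r : ℝ) / ((r + 1).choose ((r + 1) / 2) : ℕ))
      atTop (nhds 1) := by
  rcases Nat.eq_zero_or_pos m with rfl | hm0
  · simpa only [kcAlmost_zero] using kcTwo_asymp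
  · obtain rfl : m = 1 := by omega
    have hlim : Tendsto (fun r : ℕ => (r : ℝ) / (r + 4)) atTop (nhds 1) := by
      have h1 : Tendsto (fun r : ℕ => 1 - 4 / ((r : ℝ) + 4)) atTop (nhds (1 - 0)) := by
        refine Tendsto.sub tendsto_const_nhds ?_
        refine Tendsto.div_atTop tendsto_const_nhds ?_
        exact tendsto_atTop_add_const_right _ _ tendsto_natCast_atTop_atTop
      rw [sub_zero] at h1
      refine h1.congr fun r => ?_
      have : (r : ℝ) + 4 ≠ 0 := by positivity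
      field_simp
      ring
    have hlim2 : Tendsto (fun r : ℕ => ((r : ℝ) + 1) / r) atTop (nhds 1) := by
      have h1 : Tendsto (fun r : ℕ => 1 + 1 / (r : ℝ)) atTop (nhds (1 + 0)) :=
        Tendsto.add tendsto_const_nhds
          (Tendsto.div_atTop tendsto_const_nhds tendsto_natCast_atTop_atTop)
      rw [add_zero] at h1
      refine h1.congr' ?_
      filter_upwards [eventually_ge_atTop 1] with r hr
      have : (r : ℝ) ≠ 0 := by
        have : (0 : ℝ) < r := by exact_mod_cast hr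
        exact this.ne'
      field_simp
    refine tendsto_of_tendsto_of_tendsto_of_le_of_le' hlim hlim2 ?_ ?_
    · filter_upwards [eventually_ge_atTop 5] with r hr
      have hpos : (0 : ℝ) < ((r + 1).choose ((r + 1) / 2) : ℕ) := by
        exact_mod_cast Nat.choose_pos (by omega)
      rw [le_div_iff₀ hpos]
      refine (ratio_bound hr).trans ?_
      have := kcAlmost_lower (m := 1) hr (by omega)
      exact_mod_cast (by omega : (r + 1).choose (r / 2 + 2) ≤ kcAlmost 1 r r)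
    · filter_upwards [eventually_ge_atTop 1] with r hr
      have hpos : (0 : ℝ) < ((r + 1).choose ((r + 1) / 2) : ℕ) := by
        exact_mod_cast Nat.choose_pos (by omega)
      have hr0 : (0 : ℝ) < r := by exact_mod_cast hr
      rw [div_le_div_iff₀ hpos hr0]
      have h1 := kcAlmost_le (m := 1) (r := r) le_rfl hr
      have h2 := four_mul_mid_le r hr
      have h3 : kcAlmost 1 r r * r ≤ (r + 1) * (r + 1).choose ((r + 1) / 2) := by
        calc kcAlmost 1 r r * r ≤ (4 * (r - 1).choose ((r - 1) / 2)) * r := by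
              refine Nat.mul_le_mul_right _ (h1.trans (le_of_eq ?_))
              norm_num
              ring
          _ = r * (4 * (r - 1).choose ((r - 1) / 2)) := by ring
          _ ≤ _ := h2
      exact_mod_cast h3

/-- the factor of the upper bound is nonnegative -/
lemma fac_nonneg (m : ℕ) : (0 : ℝ) ≤ 2 ^ m - m + 1 := by
  have h : ((m : ℕ) : ℝ) ≤ ((2 ^ m : ℕ) : ℝ) := by
    exact_mod_cast (Nat.lt_two_pow_self (n := m)).le
  push_cast at h
  linarith

/-- explicit upper bound -/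
theorem kcAlmost_upper_real {m r : ℕ} (hmr : m ≤ r) (hr : 1 ≤ r) :
    (kcAlmost m r r : ℝ) ≤ (2 ^ m - m + 1) * (2 ^ r / √((r : ℝ) - m + 1)) := by
  rcases Nat.eq_zero_or_pos m with rfl | hm
  · rw [kcAlmost_zero]
    have h1 := kcTwo_le hr
    have h2 := mid_upper_real (r + 1)
    have h3 : (kcTwo r r : ℝ) ≤ (((r + 1).choose ((r + 1) / 2) : ℕ) : ℝ) := by exact_mod_cast h1
    refine h3.trans (h2.trans ?_)
    have h4 : (2 : ℝ) ^ 0 - ((0 : ℕ) : ℝ) + 1 = 2 := by norm_num
    rw [h4, show ((r : ℝ) - ((0 : ℕ) : ℝ) + 1) = r + 1 by push_cast; ring, pow_succ,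
      mul_comm ((2 : ℝ) ^ r) 2, mul_div_assoc]
    refine mul_le_mul_of_nonneg_left ?_ (by norm_num)
    refine div_le_div_of_nonneg_left (by positivity) (Real.sqrt_pos.2 (by positivity)) ?_
    apply Real.sqrt_le_sqrt
    push_cast
    linarith
  · have h1 := kcAlmost_le hm hmr
    have hm2 : m ≤ 2 ^ m := Nat.lt_two_pow_self.le
    have h2 : (kcAlmost m r r : ℝ) ≤
        ((2 ^ m * ((2 ^ m - m + 1) * (r - m).choose ((r - m) / 2)) : ℕ) : ℝ) := by
      exact_mod_cast h1
    refine h2.trans ?_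
    have h3 := mid_upper_real (r - m)
    rw [Nat.cast_sub hmr] at h3
    have h4 : (2 : ℝ) ^ r = 2 ^ m * 2 ^ (r - m) := by
      rw [← pow_add]
      congr 1
      omega
    have h5 := fac_nonneg m
    rw [Nat.cast_mul, Nat.cast_mul, Nat.cast_add, Nat.cast_sub hm2]
    push_cast
    calc (2 : ℝ) ^ m * ((2 ^ m - m + 1) * ((r - m).choose ((r - m) / 2) : ℕ))
        ≤ 2 ^ m * ((2 ^ m - m + 1) * (2 ^ (r - m) / √((r : ℝ) - m + 1))) :=
          mul_le_mul_of_nonneg_left (mul_le_mul_of_nonneg_left h3 h5) (by positivity)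
      _ = _ := by rw [h4]; ring

/-- explicit lower bound -/
theorem kcAlmost_lower_real {m r : ℕ} (hmr : m ≤ r) (hr : 5 ≤ r) :
    (1 / 2 : ℝ) * (2 ^ r / √(r : ℝ)) ≤ (kcAlmost m r r : ℝ) := by
  have h1 : (((r + 1).choose (r / 2 + 2) : ℕ) : ℝ) ≤ (kcAlmost m r r : ℝ) := by
    exact_mod_cast (Nat.le_succ _).trans (kcAlmost_lower hr hmr)
  refine le_trans ?_ h1
  refine le_trans ?_ (ratio_bound hr)
  have h2 := mid_lower_real (r + 1)
  have hr' : (5 : ℝ) ≤ r := by exact_mod_cast hr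
  have hr0 : (0 : ℝ) < r := by linarith
  refine le_trans ?_ (mul_le_mul_of_nonneg_left h2 (by positivity))
  have hS : 0 < √(2 * (((r + 1 : ℕ) : ℝ) + 1)) := Real.sqrt_pos.2 (by positivity)
  have hq : 0 < √(r : ℝ) := Real.sqrt_pos.2 hr0
  have h4 : (r + 4) * √(2 * (((r + 1 : ℕ) : ℝ) + 1)) ≤ 4 * r * √(r : ℝ) := by
    refine le_of_sq_le_sq ?_ (by positivity)
    rw [mul_pow, mul_pow, Real.sq_sqrt (by positivity), Real.sq_sqrt hr0.le]
    push_cast
    have h5 : 0 ≤ (r : ℝ) - 5 := by linarith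
    nlinarith [mul_nonneg h5 h5, mul_nonneg (mul_nonneg h5 h5) h5]
  have e1 : (1 / 2 : ℝ) * (2 ^ r / √(r : ℝ)) = 2 ^ r * (1 / (2 * √(r : ℝ))) := by
    field_simp
  have e2 : (r : ℝ) / (r + 4) * (2 ^ (r + 1) / √(2 * (((r + 1 : ℕ) : ℝ) + 1)))
      = 2 ^ r * (2 * r / ((r + 4) * √(2 * (((r + 1 : ℕ) : ℝ) + 1)))) := by
    rw [pow_succ]
    field_simp
  rw [e1, e2]
  refine mul_le_mul_of_nonneg_left ?_ (by positivity)
  rw [div_le_div_iff₀ (by positivity) (by positivity)]
  linarith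

/-- comparison of the denominators -/
lemma denom_le {m r : ℕ} (hmr : 2 * m ≤ r) (hr : 1 ≤ r) :
    (2 : ℝ) ^ r / √((r : ℝ) - m + 1) ≤ 2 * (2 ^ r / √(r : ℝ)) := by
  have hr0 : (0 : ℝ) < r := by exact_mod_cast hr
  have hm : (2 : ℝ) * m ≤ r := by exact_mod_cast hmr
  have hq : 0 < √(r : ℝ) := Real.sqrt_pos.2 hr0
  have hp : 0 < (r : ℝ) - m + 1 := by linarith
  have hS : 0 < √((r : ℝ) - m + 1) := Real.sqrt_pos.2 hp
  have h1 : √(r : ℝ) ≤ 2 * √((r : ℝ) - m + 1) := by
    refine le_of_sq_le_sq ?_ (by positivity)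
    rw [mul_pow, Real.sq_sqrt hp.le, Real.sq_sqrt hr0.le]
    linarith
  rw [← mul_div_assoc, div_le_div_iff₀ hS hq]
  have h2 : (0 : ℝ) < 2 ^ r := by positivity
  calc (2 : ℝ) ^ r * √(r : ℝ) ≤ 2 ^ r * (2 * √((r : ℝ) - m + 1)) :=
        mul_le_mul_of_nonneg_left h1 h2.le
    _ = _ := by ring

/-- order of growth -/
theorem kcAlmost_theta (m : ℕ) :
    (fun r : ℕ => (kcAlmost m r r : ℝ)) =Θ[atTop] (fun r : ℕ => (2 : ℝ) ^ r / √(r : ℝ)) := by
  constructor
  · refine IsBigO.of_bound ((2 ^ m - m + 1) * 2) ?_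
    filter_upwards [eventually_ge_atTop (2 * m + 1)] with r hr
    rw [Real.norm_of_nonneg (by positivity), Real.norm_of_nonneg (by positivity)]
    refine (kcAlmost_upper_real (m := m) (r := r) (by omega) (by omega)).trans ?_
    rw [mul_assoc]
    exact mul_le_mul_of_nonneg_left (denom_le (by omega) (by omega)) (fac_nonneg m)
  · refine IsBigO.of_bound 2 ?_
    filter_upwards [eventually_ge_atTop (m + 5)] with r hr
    rw [Real.norm_of_nonneg (by positivity), Real.norm_of_nonneg (by positivity)]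
    have := kcAlmost_lower_real (m := m) (r := r) (by omega) (by omega)
    linarith

/-- a slowly growing number of arbitrary parts -/
theorem kcAlmost_littleo (μ : ℕ → ℕ)
    (hμ : Tendsto (fun r : ℕ => (2 : ℝ) ^ (μ r) / √(r : ℝ)) atTop (nhds 0)) :
    Tendsto (fun r : ℕ => (kcAlmost (μ r) r r : ℝ) / 2 ^ r) atTop (nhds 0) := by
  have h4 : Tendsto (fun r : ℕ => 4 * ((2 : ℝ) ^ (μ r) / √(r : ℝ))) atTop (nhds 0) := by
    simpa using hμ.const_mul 4
  refine squeeze_zero' (Eventually.of_forall fun r => by positivity) ?_ h4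
  have hev : ∀ᶠ r : ℕ in atTop, (2 : ℝ) ^ (μ r) / √(r : ℝ) < 1 / 2 :=
    hμ.eventually (gt_mem_nhds (by norm_num))
  filter_upwards [hev, eventually_ge_atTop 1] with r h1 hr
  have hr1 : (1 : ℝ) ≤ r := by exact_mod_cast hr
  have hr0 : (0 : ℝ) < r := by linarith
  have hq : 0 < √(r : ℝ) := Real.sqrt_pos.2 hr0
  have hs2 : √(r : ℝ) ≤ r := by
    rw [Real.sqrt_le_left hr0.le]
    nlinarith
  have h2 : (2 : ℝ) ^ (μ r) < 1 / 2 * √(r : ℝ) := by rwa [div_lt_iff₀ hq] at h1
  have h3 : ((μ r : ℕ) : ℝ) < 2 ^ (μ r) := by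
    exact_mod_cast (Nat.lt_two_pow_self (n := μ r))
  have h5 : 2 * μ r ≤ r := by
    have : (2 : ℝ) * (μ r : ℕ) ≤ r := by linarith
    exact_mod_cast this
  have h6 := kcAlmost_upper_real (m := μ r) (r := r) (by omega) hr
  have h7 := denom_le (m := μ r) (r := r) h5 hr
  have h8 : (2 : ℝ) ^ (μ r) - (μ r : ℕ) + 1 ≤ 2 * 2 ^ (μ r) := by
    have h9 : (1 : ℝ) ≤ 2 ^ (μ r) := one_le_pow₀ (by norm_num)
    have h10 : (0 : ℝ) ≤ (μ r : ℕ) := Nat.cast_nonneg _
    linarith
  rw [div_le_iff₀ (by positivity)]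
  calc (kcAlmost (μ r) r r : ℝ)
      ≤ (2 ^ (μ r) - (μ r : ℕ) + 1) * (2 ^ r / √((r : ℝ) - (μ r : ℕ) + 1)) := h6
    _ ≤ (2 * 2 ^ (μ r)) * (2 * (2 ^ r / √(r : ℝ))) :=
        mul_le_mul h8 h7 (by positivity) (by positivity)
    _ = 4 * ((2 : ℝ) ^ (μ r) / √(r : ℝ)) * 2 ^ r := by ring

end Pool.Agent.helper82.KCA
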